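import Pool.Agent.H903.GP.Pt

set_option autoImplicit false

/-!
Project GP, S_GDP: almost all heights are good.
-/

open Finset Complex Filter Topology Metric Set MeasureTheory

namespace Pool.Agent.H903.GP

open Pool.Agent.Helper242.KK (FT Ph)
open Pool.Agent.H477.Jen
open Pool.Agent.H477.E
open Pool.Agent.H487.GA
open Pool.Agent.H487.GP

/-- Markov with a measurable exceptional set -/
theorem markov_set {f : ℝ → ℝ} {a b ε M : ℝ} (hε : 0 < ε) (hf : AEMeasurable f (volume.restrict (Icc a b)))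
    (hM : ∫⁻ t in Icc a b, ENNReal.ofReal |f t| ≤ ENNReal.ofReal (ε * M)) :
    ∃ B : Set ℝ, MeasurableSet B ∧ volume B ≤ ENNReal.ofReal M ∧ ∀ t ∈ Icc a b, t ∉ B → |f t| ≤ ε := by
  set μ : Measure ℝ := volume.restrict (Icc a b) with hμ
  set A : Set ℝ := {t : ℝ | ENNReal.ofReal ε ≤ ENNReal.ofReal |f t|} with hA
  have hg : AEMeasurable (fun t => ENNReal.ofReal |f t|) μ :=
    ENNReal.measurable_ofReal.comp_aemeasurable hf.norm
  have h1 : ENNReal.ofReal ε * μ A ≤ ENNReal.ofReal (ε * M) := (mul_meas_ge_le_lintegral₀ hg _).trans hM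
  have hε0 : ENNReal.ofReal ε ≠ 0 := by
    rw [Ne, ENNReal.ofReal_eq_zero, not_le]
    exact hε
  have h2 : μ A ≤ ENNReal.ofReal M := by
    rw [ENNReal.ofReal_mul hε.le] at h1
    exact (ENNReal.mul_le_mul_iff_right hε0 ENNReal.ofReal_ne_top).1 h1
  refine ⟨toMeasurable μ A ∩ Icc a b, (measurableSet_toMeasurable μ A).inter measurableSet_Icc, ?_, fun t ht htB => ?_⟩
  · have h3 : μ (toMeasurable μ A) = volume (toMeasurable μ A ∩ Icc a b) :=
      Measure.restrict_apply (measurableSet_toMeasurable μ A)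
    rw [← h3, measure_toMeasurable]
    exact h2
  · by_contra hc
    push Not at hc
    exact htB ⟨subset_toMeasurable μ A (ENNReal.ofReal_le_ofReal hc.le), ht⟩

/-- **S_GDP** -/
theorem gdp_proof : S_GDX → S_LGV → S_RE → S_CZ → S_XXA → Pool.Agent.H487.ED.S_SPC → S_GDP := by
  intro hGDX hLGV hRE hCZ hXXA hSPC v ε hv hε hε1
  obtain ⟨k1, δ1, T1, hδ1, hT1, h1⟩ := one_pt hGDX hLGV hRE hSPC hε hε1
  obtain ⟨C, T2, hC, hT2, h2⟩ := hCZ
  obtain ⟨δ3, K3, T3, hδ3, hK3, hT3, h3⟩ := hXXA v (ε * (ε / 16)) hv (by positivity)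
  obtain ⟨N, hN⟩ : ∃ N : ℕ, N = ⌊v / 2 + 1⌋₊ + 1 := ⟨_, rfl⟩
  obtain ⟨k2, hk2⟩ := exists_nat_ge (max K3 (16 * (N * C) / ε))
  obtain ⟨T4, hT4⟩ : ∃ T4 : ℝ, ∀ T : ℝ, T4 ≤ T → 3 * Real.log T ≤ ε / 32 * T ∧ 10 ≤ Real.log T := by
    have a1 := Real.isLittleO_log_id_atTop.def (show (0:ℝ) < ε / 96 by positivity)
    have a2 : ∀ᶠ T : ℝ in atTop, 10 ≤ Real.log T := Real.tendsto_log_atTop.eventually_ge_atTop _
    refine eventually_atTop.1 ?_
    filter_upwards [a1, a2, eventually_ge_atTop (1:ℝ)] with T a3 a4 a5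
    refine ⟨?_, a4⟩
    rw [Real.norm_eq_abs, Real.norm_eq_abs, id, abs_of_nonneg (show 0 ≤ Real.log T by linarith), abs_of_nonneg (show 0 ≤ T by linarith)] at a3
    linarith
  obtain ⟨δ, hδ, d1, d2, d3⟩ : ∃ δ : ℝ, 0 < δ ∧ δ ≤ δ1 ∧ 4 * δ ≤ δ3 ∧ 4 * δ ≤ 1 := by
    refine ⟨min δ1 (min (δ3 / 4) (1 / 4)), by positivity, min_le_left _ _, ?_, ?_⟩
    · have := (min_le_right δ1 (min (δ3 / 4) (1 / 4))).trans (min_le_left _ _); linarith
    · have := (min_le_right δ1 (min (δ3 / 4) (1 / 4))).trans (min_le_right _ _); linarith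
  refine ⟨max (max k1 k2) 1, δ, max (max (max T1 T2) (max T3 T4)) (max 10 (32 * (v + 2) / ε)), hδ,
    (le_max_left _ _).trans (le_max_right _ _), ?_⟩
  intro T hT k hk hkδ
  simp only [max_le_iff] at hT hk
  obtain ⟨⟨⟨hT1', hT2'⟩, hT3', hT4'⟩, hT10, hTv⟩ := hT
  obtain ⟨⟨hk1, hk2'⟩, hk1'⟩ := hk
  have hT0 : 0 < T := by linarith
  obtain ⟨hlog1, hlog2⟩ := hT4 T hT4'
  have hkR : (1:ℝ) ≤ k := by exact_mod_cast hk1'
  have hKk0 : max K3 (16 * (N * C) / ε) ≤ k := hk2.trans (by exact_mod_cast hk2')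
  have hKk : K3 ≤ k := (le_max_left _ _).trans hKk0
  have hCk : 16 * (N * C) / ε ≤ k := (le_max_right _ _).trans hKk0
  obtain ⟨l1, l2⟩ := lamT_log hT0
  have hlam : 0 < lamT T := by linarith
  have hlam4 : Real.log T / 4 ≤ lamT T := by linarith
  have hkd : (k:ℝ) ≤ δ1 * Real.log T := hkδ.trans (mul_le_mul_of_nonneg_right d1 (by linarith))
  obtain ⟨W, hW, B1, hB1, hB1v, hg⟩ := h1 T hT1' k hk1 hkd
  obtain ⟨r, hr⟩ : ∃ r : ℝ, r = k / lamT T := ⟨_, rfl⟩
  rw [← hr] at hg ⊢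
  have hr0 : 0 < r := by rw [hr]; positivity
  have hr4 : r ≤ 4 * δ := by
    rw [hr, div_le_iff₀ hlam]
    linarith [mul_le_mul_of_nonneg_left hlam4 hδ.le]
  have hr1 : r ≤ 1 := hr4.trans d3
  have hrk : (k:ℝ) ≤ r * Real.log T := by
    rw [hr, div_mul_eq_mul_div, le_div_iff₀ hlam]
    exact mul_le_mul_of_nonneg_left (by linarith) (by linarith)
  obtain ⟨B2, hB2, hB2v, hcz⟩ := h2 T hT2' r hr0 hr1
  obtain ⟨hm, hx⟩ := h3 T hT3' r hr0 (hr4.trans d2) (hKk.trans hrk)
  rw [show ε * (ε / 16) * T = ε * (ε / 16 * T) by ring] at hx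
  obtain ⟨B3, hB3, hB3v, hxx⟩ := markov_set hε hm hx
  have hvr : v * r ≤ v := by
    have := mul_le_mul_of_nonneg_left hr1 hv.le
    linarith
  have hvr0 : 0 < v * r := mul_pos hv hr0
  have hTv2 : v + 2 ≤ ε / 32 * T := by
    rw [div_le_iff₀ hε] at hTv
    linarith
  -- the exceptional set
  refine ⟨W, hW, ((B1 ∪ (fun t => t + v * r) ⁻¹' B1) ∪ ((⋃ i ∈ Finset.range N, (fun t => t + 2 * (i : ℝ) * r) ⁻¹' B2) ∪ B3)) ∪
    (Icc T (T + 3 * Real.log T + 1) ∪ Icc (2 * T - 3 * Real.log T - v * r - 2) (2 * T)), ?_, ?_, ?_⟩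
  · refine (((hB1.union (measurable_add_const _ hB1)).union ((Finset.measurableSet_biUnion _ fun i _ => measurable_add_const _ hB2).union hB3))).union
      (measurableSet_Icc.union measurableSet_Icc)
  · -- the measure
    have v1 : volume ((fun t => t + v * r) ⁻¹' B1) ≤ ENNReal.ofReal (ε / 8 * T) := by
      rw [measure_preimage_add_right]
      exact hB1v
    have v2 : volume (⋃ i ∈ Finset.range N, (fun t => t + 2 * (i : ℝ) * r) ⁻¹' B2) ≤ ENNReal.ofReal (ε / 16 * T) := by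
      refine (measure_biUnion_finset_le _ _).trans ?_
      have e1 : ∀ i ∈ Finset.range N, volume ((fun t => t + 2 * (i : ℝ) * r) ⁻¹' B2) ≤ ENNReal.ofReal (C * T / (r * Real.log T)) := by
        intro i _
        rw [measure_preimage_add_right]
        exact hB2v
      refine (Finset.sum_le_sum e1).trans ?_
      rw [Finset.sum_const, Finset.card_range, nsmul_eq_mul, ← ENNReal.ofReal_natCast, ← ENNReal.ofReal_mul (Nat.cast_nonneg _)]
      apply ENNReal.ofReal_le_ofReal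
      have hrL : 0 < r * Real.log T := by linarith
      rw [mul_div_assoc', div_le_iff₀ hrL]
      rw [div_le_iff₀ hε] at hCk
      have e2 : 16 * (N * C) ≤ (r * Real.log T) * ε := hCk.trans (mul_le_mul_of_nonneg_right hrk hε.le)
      have e3 := mul_le_mul_of_nonneg_right e2 hT0.le
      linarith
    have v3 : volume (Icc T (T + 3 * Real.log T + 1)) ≤ ENNReal.ofReal (ε / 16 * T) := by
      rw [Real.volume_Icc]
      apply ENNReal.ofReal_le_ofReal
      linarith
    have v4 : volume (Icc (2 * T - 3 * Real.log T - v * r - 2) (2 * T)) ≤ ENNReal.ofReal (ε / 16 * T) := by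
      rw [Real.volume_Icc]
      apply ENNReal.ofReal_le_ofReal
      linarith
    have p1 : 0 ≤ ε / 8 * T := by positivity
    have p2 : 0 ≤ ε / 16 * T := by positivity
    calc _ ≤ ((volume B1 + volume ((fun t => t + v * r) ⁻¹' B1)) + (volume (⋃ i ∈ Finset.range N, (fun t => t + 2 * (i : ℝ) * r) ⁻¹' B2) + volume B3)) +
          (volume (Icc T (T + 3 * Real.log T + 1)) + volume (Icc (2 * T - 3 * Real.log T - v * r - 2) (2 * T))) := by
          refine (measure_union_le _ _).trans (add_le_add ((measure_union_le _ _).trans (add_le_add (measure_union_le _ _) (measure_union_le _ _))) (measure_union_le _ _))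
      _ ≤ ((ENNReal.ofReal (ε / 8 * T) + ENNReal.ofReal (ε / 8 * T)) + (ENNReal.ofReal (ε / 16 * T) + ENNReal.ofReal (ε / 16 * T))) +
          (ENNReal.ofReal (ε / 16 * T) + ENNReal.ofReal (ε / 16 * T)) :=
          add_le_add (add_le_add (add_le_add hB1v v1) (add_le_add v2 hB3v)) (add_le_add v3 v4)
      _ ≤ ENNReal.ofReal (ε * T) := by
          rw [← ENNReal.ofReal_add p1 p1, ← ENNReal.ofReal_add p2 p2, ← ENNReal.ofReal_add (by linarith) (by linarith),
            ← ENNReal.ofReal_add (by linarith) (by linarith)]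
          apply ENNReal.ofReal_le_ofReal
          linarith [mul_pos hε hT0]
  · intro t ht1 ht2 htB
    simp only [Set.mem_union, not_or] at htB
    obtain ⟨⟨⟨b1, b2⟩, b3, b4⟩, b5, b6⟩ := htB
    have c1 : T + 3 * Real.log T + 1 < t := by
      by_contra hc
      push Not at hc
      exact b5 ⟨ht1, hc⟩
    have c2 : t < 2 * T - 3 * Real.log T - v * r - 2 := by
      by_contra hc
      push Not at hc
      exact b6 ⟨hc, ht2⟩
    have G0 := hg t ht1 ht2 b1
    have G2 := hg (t + v * r) (by linarith) (by linarith) b2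
    refine ⟨fun s hs1 hs2 => ?_, fun x hx => ?_, fun x hx hzx => ?_, fun p hp => G2.ex p hp, ?_⟩
    · -- free
      obtain ⟨i, hi⟩ : ∃ i : ℕ, i = ⌊(s - t + r) / (2 * r)⌋₊ := ⟨_, rfl⟩
      have hx0 : 0 ≤ (s - t + r) / (2 * r) := div_nonneg (by linarith) (by linarith)
      have i1 : (i : ℝ) ≤ (s - t + r) / (2 * r) := by rw [hi]; exact Nat.floor_le hx0
      have i2 : (s - t + r) / (2 * r) < i + 1 := by rw [hi]; exact Nat.lt_floor_add_one _
      rw [le_div_iff₀ (by linarith)] at i1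
      rw [div_lt_iff₀ (by linarith)] at i2
      have hiN : i < N := by
        rw [hN, Nat.lt_succ_iff, hi]
        apply Nat.floor_le_floor
        rw [div_le_iff₀ (by linarith)]
        linarith
      have b3' : t + 2 * (i : ℝ) * r ∉ B2 := by
        intro hc
        exact b3 (Set.mem_iUnion₂.2 ⟨i, Finset.mem_range.2 hiN, hc⟩)
      have hi0 : (0:ℝ) ≤ i := Nat.cast_nonneg i
      have hir : 0 ≤ (i : ℝ) * (2 * r) := by positivity
      refine hcz (t + 2 * (i : ℝ) * r) (by linarith) (by linarith) b3' _ ?_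
      have e1 : (((s : ℂ) - I * (r : ℂ))).im = -r := by simp
      have e2 : (((s : ℂ) - I * (r : ℂ))).re = s := by simp
      refine ⟨?_, ?_, ?_⟩
      · rw [e1]; linarith
      · rw [e1]; linarith
      · rw [e1, e2, abs_le]
        constructor <;> linarith
    · rcases hx with hx | hx
      · exact G0.log x hx
      · exact G2.log x hx
    · rcases hx with hx | hx
      · exact G0.zero x hx hzx
      · exact G2.zero x hx hzx
    · exact hxx t ⟨by linarith, by linarith⟩ b4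

end Pool.Agent.H903.GP
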