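import Pool.Agent.H487.GP.Stm

set_option autoImplicit false

/-!
Project GP, S_GDP: moving the point of evaluation.
-/

open Finset Complex Filter Topology Metric Set MeasureTheory

namespace Pool.Agent.H903.GP

/-- moving the point of evaluation along a vertical segment -/
theorem mvW {f : ℂ → ℂ} (hf : Differentiable ℂ f) {x r r' D lam q e : ℝ} {W : ℂ} (hW : ‖W‖ = 1) (h1 : r' ≤ r) (hD : 0 ≤ D)
    (hq0 : 0 ≤ q) (hq : D * (r - r') ≤ q) (hq2 : q ≤ 1 / 2) (he : 0 ≤ e)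
    (hz : ∀ σ : ℝ, r' ≤ σ → σ ≤ r → f ((x : ℂ) - I * σ) ≠ 0 ∧
      ‖deriv f ((x : ℂ) - I * σ) / f ((x : ℂ) - I * σ) - I * (lam : ℂ)‖ ≤ D)
    (h : |(W * f ((x : ℂ) - I * r')).re| ≤ e * ‖f ((x : ℂ) - I * r')‖) :
    |(W * f ((x : ℂ) - I * r)).re| ≤ (e * (1 + 2 * q) + 2 * q) * ‖f ((x : ℂ) - I * r)‖ := by
  set G : ℝ → ℂ := fun σ => cexp (-((lam : ℂ) * (σ : ℂ))) * f ((x : ℂ) - I * (σ : ℂ)) with hG
  have hder : ∀ σ : ℝ, HasDerivAt G (-((lam : ℂ)) * (cexp (-((lam : ℂ) * (σ : ℂ))) * f ((x : ℂ) - I * (σ : ℂ))) +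
      cexp (-((lam : ℂ) * (σ : ℂ))) * (deriv f ((x : ℂ) - I * (σ : ℂ)) * (-I))) σ := by
    intro σ
    have h2 : HasDerivAt (fun s : ℂ => cexp (-((lam : ℂ) * s)) * f ((x : ℂ) - I * s))
        (-((lam : ℂ)) * (cexp (-((lam : ℂ) * (σ : ℂ))) * f ((x : ℂ) - I * (σ : ℂ))) +
        cexp (-((lam : ℂ) * (σ : ℂ))) * (deriv f ((x : ℂ) - I * (σ : ℂ)) * (-I))) (σ : ℂ) := by
      have e1 : HasDerivAt (fun s : ℂ => cexp (-((lam : ℂ) * s))) (cexp (-((lam : ℂ) * (σ : ℂ))) * (-((lam : ℂ) * 1))) (σ : ℂ) :=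
        (((hasDerivAt_id (σ : ℂ)).const_mul (lam : ℂ)).neg).cexp
      have e2 : HasDerivAt (fun s : ℂ => (x : ℂ) - I * s) (-(I * 1)) (σ : ℂ) :=
        ((hasDerivAt_id (σ : ℂ)).const_mul I).const_sub (x : ℂ)
      have e3 : HasDerivAt (fun s : ℂ => f ((x : ℂ) - I * s)) (deriv f ((x : ℂ) - I * (σ : ℂ)) * (-(I * 1))) (σ : ℂ) :=
        ((hf ((x : ℂ) - I * (σ : ℂ))).hasDerivAt).comp (σ : ℂ) e2
      have e4 := e1.mul e3
      refine e4.congr_deriv ?_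
      ring
    exact h2.comp_ofReal
  have hbd : ∀ σ : ℝ, r' ≤ σ → σ ≤ r → ‖-((lam : ℂ)) * (cexp (-((lam : ℂ) * (σ : ℂ))) * f ((x : ℂ) - I * (σ : ℂ))) +
      cexp (-((lam : ℂ) * (σ : ℂ))) * (deriv f ((x : ℂ) - I * (σ : ℂ)) * (-I))‖ ≤ D * ‖G σ‖ := by
    intro σ h2 h3
    obtain ⟨h4, h5⟩ := hz σ h2 h3
    have e1 : -((lam : ℂ)) * (cexp (-((lam : ℂ) * (σ : ℂ))) * f ((x : ℂ) - I * (σ : ℂ))) +
      cexp (-((lam : ℂ) * (σ : ℂ))) * (deriv f ((x : ℂ) - I * (σ : ℂ)) * (-I)) =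
      -I * ((deriv f ((x : ℂ) - I * (σ : ℂ)) / f ((x : ℂ) - I * (σ : ℂ)) - I * (lam : ℂ)) * G σ) := by
      simp only [hG]
      have hI : I * I = -1 := Complex.I_mul_I
      have e5 : deriv f ((x : ℂ) - I * (σ : ℂ)) / f ((x : ℂ) - I * (σ : ℂ)) * f ((x : ℂ) - I * (σ : ℂ)) = deriv f ((x : ℂ) - I * (σ : ℂ)) :=
        div_mul_cancel₀ _ h4
      have e6 : -I * ((deriv f ((x : ℂ) - I * (σ : ℂ)) / f ((x : ℂ) - I * (σ : ℂ)) - I * (lam : ℂ)) *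
        (cexp (-((lam : ℂ) * (σ : ℂ))) * f ((x : ℂ) - I * (σ : ℂ)))) =
        -I * cexp (-((lam : ℂ) * (σ : ℂ))) * (deriv f ((x : ℂ) - I * (σ : ℂ)) / f ((x : ℂ) - I * (σ : ℂ)) * f ((x : ℂ) - I * (σ : ℂ))) +
        I * I * ((lam : ℂ) * (cexp (-((lam : ℂ) * (σ : ℂ))) * f ((x : ℂ) - I * (σ : ℂ)))) := by ring
      rw [e6, e5, hI]
      ring
    rw [e1, norm_mul, norm_neg, norm_I, one_mul, norm_mul]
    exact mul_le_mul_of_nonneg_right h5 (norm_nonneg _)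
  have hcont : ContinuousOn G (Icc r' r) := fun σ _ => (hder σ).continuousAt.continuousWithinAt
  obtain ⟨σ0, hσ0, hmax⟩ := isCompact_Icc.exists_isMaxOn (nonempty_Icc.2 h1) hcont.norm
  have hM : ∀ σ ∈ Icc r' r, ‖G σ‖ ≤ ‖G σ0‖ := fun σ hσ => hmax hσ
  have hlip : ∀ a ∈ Icc r' r, ‖G a - G r‖ ≤ q * ‖G σ0‖ := by
    intro a ha
    have h2 := (convex_Icc r' r).norm_image_sub_le_of_norm_hasDerivWithin_le (f := G)
      (f' := fun σ => -((lam : ℂ)) * (cexp (-((lam : ℂ) * (σ : ℂ))) * f ((x : ℂ) - I * (σ : ℂ))) +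
        cexp (-((lam : ℂ) * (σ : ℂ))) * (deriv f ((x : ℂ) - I * (σ : ℂ)) * (-I)))
      (C := D * ‖G σ0‖) (fun σ _ => (hder σ).hasDerivWithinAt)
      (fun σ hσ => (hbd σ hσ.1 hσ.2).trans (mul_le_mul_of_nonneg_left (hM σ hσ) hD))
      (right_mem_Icc.2 h1) ha
    refine h2.trans ?_
    have h3 : ‖a - r‖ ≤ r - r' := by
      rw [Real.norm_eq_abs, abs_sub_comm, abs_of_nonneg (by linarith [ha.2])]
      linarith [ha.1]
    calc D * ‖G σ0‖ * ‖a - r‖ ≤ D * ‖G σ0‖ * (r - r') := mul_le_mul_of_nonneg_left h3 (mul_nonneg hD (norm_nonneg _))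
      _ = (D * (r - r')) * ‖G σ0‖ := by ring
      _ ≤ q * ‖G σ0‖ := mul_le_mul_of_nonneg_right hq (norm_nonneg _)
  have hM2 : ‖G σ0‖ ≤ 2 * ‖G r‖ := by
    have h2 := hlip σ0 hσ0
    have h3 : ‖G σ0‖ ≤ ‖G σ0 - G r‖ + ‖G r‖ := by
      have := norm_add_le (G σ0 - G r) (G r)
      rwa [sub_add_cancel] at this
    have h4 : q * ‖G σ0‖ ≤ 1 / 2 * ‖G σ0‖ := mul_le_mul_of_nonneg_right hq2 (norm_nonneg _)
    linarith
  have hd : ‖G r' - G r‖ ≤ 2 * q * ‖G r‖ := by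
    refine (hlip r' (left_mem_Icc.2 h1)).trans ?_
    have := mul_le_mul_of_nonneg_left hM2 hq0
    linarith
  have hre : ∀ σ : ℝ, (W * G σ).re = Real.exp (-(lam * σ)) * (W * f ((x : ℂ) - I * (σ : ℂ))).re := by
    intro σ
    have e1 : W * G σ = ((Real.exp (-(lam * σ)) : ℝ) : ℂ) * (W * f ((x : ℂ) - I * (σ : ℂ))) := by
      simp only [hG]
      push_cast
      ring
    rw [e1, Complex.re_ofReal_mul]
  have hnm : ∀ σ : ℝ, ‖G σ‖ = Real.exp (-(lam * σ)) * ‖f ((x : ℂ) - I * (σ : ℂ))‖ := by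
    intro σ
    simp only [hG]
    rw [norm_mul, show cexp (-((lam : ℂ) * (σ : ℂ))) = ((Real.exp (-(lam * σ)) : ℝ) : ℂ) by push_cast; rfl, Complex.norm_real,
      Real.norm_eq_abs, abs_of_pos (Real.exp_pos _)]
  have h6 : |(W * G r').re| ≤ e * ‖G r'‖ := by
    rw [hre, hnm, abs_mul, abs_of_pos (Real.exp_pos _)]
    have := mul_le_mul_of_nonneg_left h (Real.exp_pos (-(lam * r'))).le
    linarith
  have h7 : |(W * G r).re| ≤ (e * (1 + 2 * q) + 2 * q) * ‖G r‖ := by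
    have e1 : (W * G r).re = (W * G r').re - (W * (G r' - G r)).re := by
      rw [mul_sub, Complex.sub_re]
      ring
    have h8 : |(W * (G r' - G r)).re| ≤ ‖G r' - G r‖ := by
      refine (Complex.abs_re_le_norm _).trans ?_
      rw [norm_mul, hW, one_mul]
    have h9 : ‖G r'‖ ≤ ‖G r' - G r‖ + ‖G r‖ := by
      have := norm_add_le (G r' - G r) (G r)
      rwa [sub_add_cancel] at this
    rw [e1]
    refine (abs_sub _ _).trans ?_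
    have h10 : e * ‖G r'‖ ≤ e * ((1 + 2 * q) * ‖G r‖) := mul_le_mul_of_nonneg_left (by linarith) he
    linarith
  rw [hre, hnm, abs_mul, abs_of_pos (Real.exp_pos _)] at h7
  have h8 : Real.exp (-(lam * r)) * |(W * f ((x : ℂ) - I * (r : ℂ))).re| ≤
      Real.exp (-(lam * r)) * ((e * (1 + 2 * q) + 2 * q) * ‖f ((x : ℂ) - I * (r : ℂ))‖) := by linarith
  exact le_of_mul_le_mul_left h8 (Real.exp_pos _)

end Pool.Agent.H903.GP
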