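import Pool.Agent.H903.GP.Mv
import Pool.Agent.H487.GA.Fin2

set_option autoImplicit false

/-!
Project GP, S_GDP: the good heights, one point.
-/

open Finset Complex Filter Topology Metric Set MeasureTheory

namespace Pool.Agent.H903.GP

open Pool.Agent.Helper242.KK (FT Ph)
open Pool.Agent.H477.Jen
open Pool.Agent.H477.E
open Pool.Agent.H487.GA
open Pool.Agent.H487.GP

/-- good at one height -/
structure G1 (ε : ℝ) (k : ℕ) (W : ℂ) (r lam t : ℝ) : Prop where
  log : ∀ x : ℝ, |x - t| ≤ 15 / lam → ‖deriv (FT Ph) ((x : ℂ) - I * r) / FT Ph ((x : ℂ) - I * r) - I * (lam : ℂ)‖ ≤ ε * lam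
  zero : ∀ x : ℝ, |x - t| ≤ 15 / lam → iteratedDeriv k (FT Ph) x = 0 →
    |(W * FT Ph ((x : ℂ) - I * r)).re| ≤ ε * ‖FT Ph ((x : ℂ) - I * r)‖
  ex : ∀ p : ℝ, |p - t| ≤ 10 / lam → ∃ y : ℝ, p - (1 + ε) * (Real.pi / lam) ≤ y ∧ y ≤ p ∧ iteratedDeriv k (FT Ph) y = 0

/-- the good heights, one point -/
theorem one_pt (hGDX : S_GDX) (hLGV : S_LGV) (hRE : S_RE) (hSPC : Pool.Agent.H487.ED.S_SPC) {ε : ℝ} (hε : 0 < ε) (hε1 : ε ≤ 1) :
    ∃ (k0 : ℕ) (δ T0 : ℝ), 0 < δ ∧ 10 ≤ T0 ∧ ∀ T : ℝ, T0 ≤ T → ∀ k : ℕ, k0 ≤ k → (k : ℝ) ≤ δ * Real.log T →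
      ∃ W : ℂ, ‖W‖ = 1 ∧ ∃ B : Set ℝ, MeasurableSet B ∧ volume B ≤ ENNReal.ofReal (ε / 8 * T) ∧ ∀ t : ℝ, T ≤ t → t ≤ 2 * T → t ∉ B →
        G1 ε k W (k / lamT T) (lamT T) t := by
  obtain ⟨J, K, δ1, T1, hJ, hK, hδ1, hT1, hgd⟩ := hGDX (ε / 16) (by positivity)
  obtain ⟨η1, hη1, hη11, k1, hre⟩ := hRE (J + 1) (ε / 8) (by positivity) (by positivity)
  obtain ⟨η2, hη2, hη21, k2, hsp⟩ := hSPC ε hε
  obtain ⟨c, hc, k3, T3, hlg⟩ := hLGV (min η1 η2) (lt_min hη1 hη2) ((min_le_left _ _).trans hη11)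
  obtain ⟨k4, hk4⟩ : ∃ k4 : ℕ, ∀ k : ℕ, k4 ≤ k → Real.exp (-c * k) ≤ ε / 16 := by
    have h1 : Tendsto (fun k : ℕ => Real.exp (-c * k)) atTop (𝓝 0) := by
      apply Real.tendsto_exp_atBot.comp
      have h2 : Tendsto (fun k : ℕ => -(c * (k:ℝ))) atTop atBot :=
        tendsto_neg_atTop_atBot.comp (Tendsto.const_mul_atTop hc tendsto_natCast_atTop_atTop)
      exact h2.congr fun k => by ring
    exact eventually_atTop.1 (h1.eventually_le_const (by positivity))
  obtain ⟨k5, hk5⟩ := exists_nat_ge (max K (480 * J / ε))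
  -- parameters
  obtain ⟨δ, hδ, d1, d2, d3, d4⟩ : ∃ δ : ℝ, 0 < δ ∧ 4 * δ ≤ δ1 ∧ 4 * δ ≤ ε / 200 ∧ 4 * δ ≤ 1 / 100 ∧ 600 * δ ≤ 1 := by
    refine ⟨min (δ1 / 4) (min (ε / 800) (1 / 600)), by positivity, ?_, ?_, ?_, ?_⟩
    · have := min_le_left (δ1 / 4) (min (ε / 800) (1 / 600)); linarith
    · have := (min_le_right (δ1 / 4) (min (ε / 800) (1 / 600))).trans (min_le_left _ _); linarith
    · have := (min_le_right (δ1 / 4) (min (ε / 800) (1 / 600))).trans (min_le_right _ _); linarith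
    · have := (min_le_right (δ1 / 4) (min (ε / 800) (1 / 600))).trans (min_le_right _ _); linarith
  obtain ⟨T4, hT4⟩ : ∃ T4 : ℝ, ∀ T : ℝ, T4 ≤ T → 600 + 800 * (J + 1) / ε ≤ Real.log T :=
    eventually_atTop.1 (Real.tendsto_log_atTop.eventually_ge_atTop _)
  refine ⟨max (max (max k1 k2) (max k3 k4)) (max k5 400), δ, max (max (max T1 T3) T4) 10, hδ, le_max_right _ _, ?_⟩
  intro T hT k hk hkδ
  simp only [max_le_iff] at hT hk
  obtain ⟨⟨⟨hT1', hT3'⟩, hT4'⟩, hT10⟩ := hT
  obtain ⟨⟨⟨hk1, hk2⟩, hk3, hk4'⟩, hk5', hk400⟩ := hk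
  have hT0 : 0 < T := by linarith
  have hL := hT4 T hT4'
  have hLJ : 0 < 800 * (J + 1) / ε := by positivity
  have hkR : (400:ℝ) ≤ k := by exact_mod_cast hk400
  have hKk0 : max K (480 * J / ε) ≤ k := hk5.trans (by exact_mod_cast hk5')
  have hKk : K ≤ k := (le_max_left _ _).trans hKk0
  have hJk : 480 * J / ε ≤ k := (le_max_right _ _).trans hKk0
  obtain ⟨l1, l2⟩ := lamT_log hT0
  have hlam : 0 < lamT T := by linarith
  have hlam4 : Real.log T / 4 ≤ lamT T := by linarith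
  obtain ⟨r, hr⟩ : ∃ r : ℝ, r = k / lamT T := ⟨_, rfl⟩
  have hr0 : 0 < r := by rw [hr]; positivity
  have hr4 : r ≤ 4 * δ := by
    rw [hr, div_le_iff₀ hlam]
    linarith [mul_le_mul_of_nonneg_left hlam4 hδ.le]
  have hrL : K ≤ r * Real.log T := by
    have : (k:ℝ) * 1 ≤ r * Real.log T := by
      rw [hr, div_mul_eq_mul_div, le_div_iff₀ hlam]
      linarith [mul_le_mul_of_nonneg_left (show lamT T ≤ Real.log T by linarith) (show (0:ℝ) ≤ k by linarith)]
    linarith
  have h300 : 300 * (k : ℝ) + 300 ≤ Real.log T := by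
    linarith [mul_le_mul_of_nonneg_right d4 (show 0 ≤ Real.log T by linarith)]
  obtain ⟨B1, hB1, hB1v, hg⟩ := hgd T hT1' r hr0 hrL (by linarith)
  obtain ⟨B2, hB2, hB2v, hl⟩ := hlg T hT3' k hk3 h300
  have hwk : ‖wk k‖ = 1 := by
    unfold wk
    split_ifs
    · exact norm_one
    · exact norm_I
  obtain ⟨W, hW1, hW2⟩ : ∃ W : ℂ, ‖W‖ = 1 ∧ (AA k ≠ 0 → W = wk k * AA k / ((‖AA k‖ : ℝ) : ℂ)) := by
    by_cases h : AA k = 0
    · exact ⟨1, norm_one, fun h2 => absurd h h2⟩
    · refine ⟨wk k * AA k / ((‖AA k‖ : ℝ) : ℂ), ?_, fun _ => rfl⟩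
      rw [norm_div, norm_mul, hwk, Complex.norm_real, Real.norm_eq_abs, abs_of_nonneg (norm_nonneg _), one_mul]
      exact div_self (norm_ne_zero_iff.2 h)
  refine ⟨W, hW1, B1 ∪ B2, hB1.union hB2, ?_, fun t ht1 ht2 htB => ?_⟩
  · refine (measure_union_le _ _).trans ((add_le_add hB1v hB2v).trans ?_)
    rw [← ENNReal.ofReal_add (by positivity) (by positivity)]
    apply ENNReal.ofReal_le_ofReal
    have := mul_le_mul_of_nonneg_right (hk4 k hk4') hT0.le
    linarith [mul_pos hε hT0]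
  · rw [Set.mem_union, not_or] at htB
    obtain ⟨g1, g2⟩ := hg t ht1 ht2 htB.1
    obtain ⟨T', t1, t2, g3⟩ := hl t ht1 ht2 htB.2
    obtain ⟨m1, m2⟩ := lamT_two (by linarith) t1 t2
    obtain ⟨lam', hlam'⟩ : ∃ lam' : ℝ, lam' = lamT T' := ⟨_, rfl⟩
    rw [← hlam'] at m1 m2 g3
    have hlam'0 : 0 < lam' := by linarith
    have hr'r : (k:ℝ) / lam' ≤ r := by rw [hr]; exact div_le_div_of_nonneg_left (by linarith) hlam m1
    have hr'0 : 0 < (k:ℝ) / lam' := by positivity
    have hrr : (r - k / lam') / r ≤ 7 / 20 / lamT T := by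
      have e : (r - k / lam') / r = (lam' - lamT T) / lam' := by
        rw [hr]
        field_simp
      rw [e]
      calc (lam' - lamT T) / lam' ≤ (7 / 20) / lam' := by
            apply div_le_div_of_nonneg_right _ hlam'0.le
            linarith
        _ ≤ 7 / 20 / lamT T := div_le_div_of_nonneg_left (by norm_num) hlam m1
    have hlam100 : 100 ≤ lamT T := by linarith
    have hrr2 : r - k / lam' ≤ r / 100 := by
      have h1 : (7:ℝ) / 20 / lamT T ≤ 1 / 100 := by
        rw [div_le_iff₀ hlam]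
        linarith
      have h2 := hrr.trans h1
      rw [div_le_iff₀ hr0] at h2
      linarith
    have hk100 : (k:ℝ) / lam' ≤ 1 / 100 := by linarith
    have hJlam : 7 / 20 / lamT T * (5 * J) ≤ ε / 8 := by
      rw [div_mul_eq_mul_div, div_le_iff₀ hlam]
      have h1 : 400 * (J + 1) / ε ≤ lamT T + 1 := by
        have e : 800 * (J + 1) / ε = 2 * (400 * (J + 1) / ε) := by ring
        rw [e] at hL
        linarith
      have h2 : ε * (400 * (J + 1) / ε) = 400 * (J + 1) := by field_simp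
      have h3 := mul_le_mul_of_nonneg_left h1 hε.le
      rw [h2] at h3
      linarith
    have h15r : 15 / lamT T ≤ r / 4 := by
      rw [hr, div_div, div_le_div_iff₀ hlam (by positivity)]
      linarith [mul_le_mul_of_nonneg_right (show (60:ℝ) ≤ k by linarith) hlam.le]
    have hJr : J / r ≤ ε * lamT T := by
      rw [hr, div_div_eq_mul_div, div_le_iff₀ (by linarith)]
      rw [div_le_iff₀ hε] at hJk
      have h1 : J ≤ ε * k := by linarith [mul_pos hε (show (0:ℝ) < k by linarith)]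
      have h2 := mul_le_mul_of_nonneg_right h1 hlam.le
      linarith
    have hball : ∀ x σ : ℝ, |x - t| ≤ 15 / lamT T → (k:ℝ) / lam' ≤ σ → σ ≤ r → ‖((x : ℂ) - I * (σ : ℂ)) - ((t : ℂ) - I * r)‖ ≤ r / 2 := by
      intro x σ h1 h2 h3
      rw [show ((x : ℂ) - I * (σ : ℂ)) - ((t : ℂ) - I * r) = ((x - t : ℝ) : ℂ) + I * ((r - σ : ℝ) : ℂ) by push_cast; ring]
      refine (norm_add_le _ _).trans ?_
      rw [norm_mul, norm_I, one_mul, Complex.norm_real, Complex.norm_real, Real.norm_eq_abs, Real.norm_eq_abs, abs_of_nonneg (sub_nonneg.2 h3)]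
      linarith
    rw [← hr]
    refine ⟨fun x hx => ?_, fun x hx hzx => ?_, fun p hp => ?_⟩
    · exact (g1 _ (hball x r hx hr'r le_rfl)).2.trans hJr
    · -- zeros
      have hw : 15 / lamT T ≤ 20 / lam' := by
        rw [div_le_div_iff₀ hlam hlam'0]
        linarith
      obtain ⟨hA, hre2⟩ := hre (FT Ph) ker_Ph.FT_diff loc_R.conj k hk1 lam' t hlam'0 hk100
        (Pool.Agent.H487.ED.LGd_mono hlam'0 g3 (min_le_left _ _)) (fun z hz => by
        have h1 : ‖z - ((t : ℂ) - I * r)‖ ≤ r / 2 := by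
          have e : z - ((t : ℂ) - I * r) = (z - ((t : ℂ) - I * ((k / lam' : ℝ) : ℂ))) + I * ((r - k / lam' : ℝ) : ℂ) := by
            push_cast
            ring
          rw [e]
          refine (norm_add_le _ _).trans ?_
          rw [norm_mul, norm_I, one_mul, Complex.norm_real, Real.norm_eq_abs, abs_of_nonneg (by linarith)]
          linarith
        obtain ⟨h2, h3⟩ := g1 z h1
        refine ⟨h2, ?_⟩
        have e : deriv (FT Ph) z / FT Ph z - I * (lam' : ℂ) = (deriv (FT Ph) z / FT Ph z - I * (lamT T : ℂ)) + I * ((lamT T - lam' : ℝ) : ℂ) := by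
          push_cast
          ring
        rw [e]
        refine (norm_add_le _ _).trans ?_
        rw [norm_mul, norm_I, one_mul, Complex.norm_real, Real.norm_eq_abs, abs_sub_comm, abs_of_nonneg (by linarith)]
        have h4 : J / r ≤ J * (lam' / k) := by
          rw [hr, div_div_eq_mul_div, mul_div_assoc]
          apply mul_le_mul_of_nonneg_left _ hJ.le
          exact div_le_div_of_nonneg_right m1 (by linarith)
        have h5 : lam' - lamT T ≤ 1 * (lam' / k) := by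
          rw [one_mul, le_div_iff₀ (by linarith)]
          have : (k:ℝ) ≤ lamT T / 100 := by
            have h6 : (k:ℝ) = r * lamT T := by rw [hr]; field_simp
            rw [h6]
            linarith [mul_le_mul_of_nonneg_right (show r ≤ 1 / 100 by linarith) hlam.le]
          linarith [mul_le_mul_of_nonneg_right (show lam' - lamT T ≤ 7 / 20 by linarith) (show (0:ℝ) ≤ k by linarith)]
        refine (add_le_add h3 le_rfl).trans ?_
        calc J / r + (lam' - lamT T) ≤ J * (lam' / k) + 1 * (lam' / k) := add_le_add h4 h5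
          _ = (J + 1) * (lam' / k) := by ring)
      have h6 := hre2 x (hx.trans hw) hzx
      have hAn : 0 < ‖AA k‖ := norm_pos_iff.2 hA
      have h7 : |(W * FT Ph ((x : ℂ) - I * ((k / lam' : ℝ) : ℂ))).re| ≤ ε / 8 * ‖FT Ph ((x : ℂ) - I * ((k / lam' : ℝ) : ℂ))‖ := by
        have e1 : W * FT Ph ((x : ℂ) - I * ((k / lam' : ℝ) : ℂ)) =
            (((‖AA k‖)⁻¹ : ℝ) : ℂ) * (wk k * AA k * FT Ph ((x : ℂ) - I * ((k / lam' : ℝ) : ℂ))) := by
          rw [hW2 hA]
          push_cast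
          ring
        rw [e1, Complex.re_ofReal_mul, abs_mul, abs_of_pos (inv_pos.2 hAn), inv_mul_le_iff₀ hAn]
        linarith
      have hq : J / r * (r - k / lam') ≤ ε / 40 := by
        have e1 : J / r * (r - k / lam') = J * ((r - k / lam') / r) := by ring
        rw [e1]
        have h8 := mul_le_mul_of_nonneg_left hrr hJ.le
        linarith
      have h8 := mvW ker_Ph.FT_diff (x := x) (lam := lamT T) (q := ε / 40) (e := ε / 8) hW1 hr'r (by positivity : 0 ≤ J / r) (by positivity) hq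
        (by linarith) (by positivity) (fun σ h1 h2 => g1 _ (hball x σ hx h1 h2)) h7
      refine h8.trans (mul_le_mul_of_nonneg_right ?_ (norm_nonneg _))
      have h9 : ε * ε ≤ ε * 1 := mul_le_mul_of_nonneg_left hε1 hε.le
      linarith
    · -- existence
      obtain ⟨s1, _⟩ := hsp (FT Ph) ker_Ph.FT_diff loc_R.conj k hk2 lam' t hlam'0 hk100
        (Pool.Agent.H487.ED.LGd_mono hlam'0 g3 (min_le_right _ _))
      have hpi := Real.pi_pos
      have hpi4 := Real.pi_lt_four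
      obtain ⟨p1, p2⟩ := abs_le.1 hp
      have h10 : 10 / lamT T ≤ 11 / lam' := by
        rw [div_le_div_iff₀ hlam hlam'0]
        linarith
      have h0 : 19 / lam' ≤ k / lam' / 16 := by
        rw [div_div, div_le_div_iff₀ hlam'0 (by positivity)]
        linarith [mul_le_mul_of_nonneg_right (show (304:ℝ) ≤ k by linarith) hlam'0.le]
      have h1 : (1 + ε) * (Real.pi / lam') ≤ 8 / lam' := by
        rw [mul_div_assoc']
        apply div_le_div_of_nonneg_right _ hlam'0.le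
        have h3 : (1 + ε) * Real.pi ≤ 2 * 4 := mul_le_mul (by linarith) hpi4.le hpi.le (by norm_num)
        linarith
      have e19 : 19 / lam' = 11 / lam' + 8 / lam' := by ring
      have e8 : 0 < 8 / lam' := by positivity
      obtain ⟨x, hx1, hx2, hx3⟩ := s1 (p - (1 + ε) * (Real.pi / lam')) p (by linarith) (by linarith) (by linarith)
      refine ⟨x, ?_, hx2, hx3⟩
      have h4 : (1 + ε) * (Real.pi / lam') ≤ (1 + ε) * (Real.pi / lamT T) :=
        mul_le_mul_of_nonneg_left (div_le_div_of_nonneg_left hpi.le hlam m1) (by linarith)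
      linarith

end Pool.Agent.H903.GP
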